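import Mathlib
import Pool.Agent.Helper54K9.Mono.Main
import Pool.Agent.Helper54K9.Mono.Upper

/-!
# 3SUM: randomized monotone real circuits need `n ^ (2 - o(1))` gates

The input is a set `S` of at most `n` integers in `[-W, W]`, given by its characteristic vector: there
is one variable for every integer of `[-W, W]`, which is `1` if the integer belongs to `S` and `0`
otherwise. The question is whether three different elements of `S` have the sum zero. As a function
of these variables the answer is monotone.

A monotone real circuit (`Circuit κ U`, in `Pool/Agent/Helper54K9/Mono/Approx.lean`) computes with real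
numbers. Its gates are maximum and minimum of any number of arguments (OR and AND of unbounded
fan-in) and arbitrary monotone real functions of `κ` arguments. The arguments of a gate are constants,
input variables and earlier gates. The circuit accepts if its output is positive.

* Lower bound. If a random circuit decides the question with error probability at most `1 / 3` on
  every input (`Decides`, in `Pool/Agent/Helper54K9/Mono/Main.lean`) and `W ≥ n`, then the expected
  number `T` of gates satisfies `n ^ 2 ≤ (κ ^ 2 + 1) * 2 ^ (92 * √(log₂ n)) * (T + 1)`.
* Upper bound. For every `W` there is a deterministic circuit with maximum and minimum gates only which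
  has `(2 * W + 1) ^ 2 + 1` gates and is correct for all subsets of `[-W, W]`.

So for `W = n` the exponent of the number of gates is exactly `2`.

Proof of the lower bound. Functions are approximated by `max c (max_{x ∈ S} a x)` with `c < a x` for at
most `s = 2 ^ O(√(log n))` relevant integers `x`. Positive tests are the `N ^ 2` sets
`{4 N + x, 8 N + y, - (12 N + x + y)}`, `x, y < N`; a gate loses at most `(κ ^ 2 + 1) s ^ 2` of them. For
the negative tests one takes a prime `p` and `3 r` random triples `(a_i, b_i, b'_i)` modulo `p`. The
integer `4 N + x` belongs to the test if `a_i x + b_i` is in the first quarter of `[0, p)` for more than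
two thirds of the `i`, the integer `8 N + y` if `a_i y + b'_i` is in the first quarter for more than
two thirds of the `i`, and `- (12 N + z)` if `a_i z + b_i + b'_i` is in the upper half for more than two
thirds of the `i`. Then `x + y ≠ z`, since otherwise some `i` is common to the three. Pairwise
independence and an induction on the number of coordinates show that a set of more than `s`
relevant integers is disjoint from the test with probability at most `2 ^ (- r ^ 2) ≤ 1 / N ^ 2`.
-/

set_option autoImplicit false

namespace Pool.Agent.Helper54K9.Old.MonotoneRealCircuits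

open Helper54K9.Mono

theorem result :
    (∀ (κ n W : ℕ), 1 ≤ n → n ≤ W → ∀ (Γ : Type) (_ : Fintype Γ) (w : Γ → ℝ),
      (∀ γ, 0 ≤ w γ) → ∑ γ, w γ = 1 → ∀ C : Γ → Circuit κ (Set.Icc (-(W : ℤ)) W),
      Decides n W w C →
      (n : ℝ) ^ 2 ≤ ((κ : ℝ) ^ 2 + 1) * 2 ^ (92 * √(Real.logb 2 n)) *
        (∑ γ, w γ * (C γ).size + 1)) ∧
    ∀ W : ℕ, ∃ C : Circuit 0 (Set.Icc (-(W : ℤ)) W), C.size = (2 * W + 1) ^ 2 + 1 ∧
      ∀ S : Finset ℤ, (∀ a ∈ S, a ∈ Set.Icc (-(W : ℤ)) W) → (C.Accepts S ↔ HasZeroSum S) :=
  ⟨fun _ n W hn hnW _ _ w hw hw1 C hC => lower_bound n W hn hnW w hw hw1 C hC,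
    fun W => ⟨trivialCircuit W, rfl, trivial_accepts W⟩⟩

end Pool.Agent.Helper54K9.Old.MonotoneRealCircuits
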